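import Pool.Agent.Y924.UF.Stm3

/-! # Project UF, part BAS: meaning of the basic formulas -/

set_option autoImplicit false

namespace Pool.Agent.Y924.UF

open Function
open Pool.Agent.Y924.EL

namespace BAS891

theorem sgB_inj (V i : ℕ) : Injective (sgB V i) := by
  intro a b h
  unfold sgB at h
  split_ifs at h <;> omega

theorem keep_of {K : Type} (v : ℕ → K) :
    Keep100 fun v' : ℕ → K => ∀ j, 100 ≤ j → v' j = v j := by
  intro v' i a hi hv j hj
  rw [update_of_ne (by omega)]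
  exact hv j hj

theorem comp_sgB {K : Type} (V i : ℕ) (v v' : ℕ → K) (h : ∀ j, 100 ≤ j → v' j = v j) :
    v' ∘ sgB V i = update (v ∘ sgB V i) 0 (v' 0) := by
  funext j
  by_cases hj : j = 0
  · subst hj
    simp [sgB]
  · rw [update_of_ne hj]
    show v' (sgB V i j) = v (sgB V i j)
    unfold sgB
    rw [if_neg hj]
    exact h _ (by omega)

theorem sat_ren (hREN : S_REN) {p : ℕ} [Fact p.Prime] (P : Set (LaurentSeries (ZMod p)))
    (φ : Fm) (V i : ℕ) (v v' : ℕ → LaurentSeries (ZMod p)) (h : ∀ j, 100 ≤ j → v' j = v j) :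
    Sat P (ren (sgB V i) φ) v' ↔ v' 0 ∈ DefP P φ (v ∘ sgB V i) := by
  rw [hREN.1 _ _ (sgB V i) (sgB_inj V i), comp_sgB V i v v' h]
  exact Iff.rfl

theorem bas_iff (hEXR : S_EXR) {K : Type} [CommRing K] (P : Set K) (τ : Tp) (φ : Fm)
    (V i j k : ℕ) (v : ℕ → K) (C : Prop)
    (h : ∀ w : ℕ → K, (∀ j, 100 ≤ j → w j = v j) → (Sat P (τ.inst (hh V φ i j k)) w ↔ C)) :
    Sat P (bas τ V φ i j k) v ↔ C := by
  unfold bas
  rw [hEXR]
  constructor
  · rintro ⟨w, h1, h2⟩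
    exact (h w fun j hj => h1 j (Or.inr (by omega))).1 h2
  · intro hC
    exact ⟨v, fun _ _ => rfl, (h v fun _ _ => rfl).2 hC⟩

end BAS891

open BAS891 in
theorem t_BAS : S_SEM1 → S_SEM2 → S_SEM3 → S_EXR → S_REN → S_CEQ → S_CADD → S_CMUL → S_FIN →
    S_FIN2 → S_VAL → S_BAS := by
  intro hSEM1 hSEM2 hSEM3 hEXR hREN hCEQ hCADD hCMUL hFIN hFIN2 hVAL p _ P φ V i j k v X hX
  have hRep : RepU P (fun v' => ∀ j, 100 ≤ j → v' j = v j) (hh V φ i j k) (X i) (X j) (X k) := by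
    intro v' hv'
    refine ⟨?_, ?_, ?_⟩
    · rw [hX i]
      exact sat_ren hREN P φ V i v v' hv'
    · rw [hX j]
      exact sat_ren hREN P φ V j v v' hv'
    · rw [hX k]
      exact sat_ren hREN P φ V k v v' hv'
  have h1 := hSEM1 _ P _ (hh V φ i j k) (X i) (X j) (X k) p (keep_of v) hRep
  have h2 := hSEM2 _ P _ (hh V φ i j k) (X i) (X j) (X k) p (keep_of v) hRep
  have h3 := hSEM3 _ P _ (hh V φ i j k) (X i) (X j) (X k) p (keep_of v) hRep
  refine ⟨?_, fun _ => ?_, fun hi hj => ?_, fun hi hj hk => ⟨?_, ?_⟩⟩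
  · refine bas_iff hEXR P _ φ V i j k v _ fun w hw => ?_
    rw [h3 w hw]
    constructor
    · rintro ⟨τ, hτ, h⟩
      exact hFIN2 p τ hτ (X i) h
    · intro hf
      obtain ⟨hV1, hV2⟩ := hVAL p
      obtain ⟨b, c, hb, hc, h4, h5⟩ := (hFIN p (X i)).1 hf
      refine ⟨_, hV2, b, c, hb, hc, fun x hx => ?_, fun x y hx hy => ?_⟩
      · obtain ⟨z, hz, hz'⟩ := h4 x hx
        exact ⟨z, (hV1 z).1 hz, hz'⟩
      · rintro ⟨z, y', hz, hz', hz''⟩
        exact h5 x y hx hy ⟨z, y', (hV1 z).2 hz, hz', hz''⟩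
  · refine bas_iff hEXR P _ φ V i j k v _ fun w hw => ?_
    rw [(h2 w hw).2, Set.ncard_eq_one]
    constructor
    · rintro ⟨a, ha, hb⟩
      exact ⟨a, Set.eq_singleton_iff_unique_mem.2 ⟨ha, hb⟩⟩
    · rintro ⟨a, ha⟩
      exact ⟨a, Set.eq_singleton_iff_unique_mem.1 ha⟩
  · refine bas_iff hEXR P _ φ V i j k v _ fun w hw => ?_
    rw [(h1 w hw).1]
    exact hCEQ p (X i) (X j) hi hj
  · refine bas_iff hEXR P _ φ V i j k v _ fun w hw => ?_
    rw [(h1 w hw).2]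
    exact hCADD p (X i) (X j) (X k) hi hj hk
  · refine bas_iff hEXR P _ φ V i j k v _ fun w hw => ?_
    rw [(h2 w hw).1]
    exact hCMUL p (X i) (X j) (X k) hi hj hk

end Pool.Agent.Y924.UF
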